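import Pool.Agent.H73.GMS.Stmts

set_option autoImplicit false

open Classical

namespace GMS

section

variable {k r : ℕ}

/-- a word in the elements `U i` -/
def RCK_ev (U : Fin r → FreeGroup (Fin k)) (g : List (Fin r × Bool)) : List (Fin k × Bool) :=
  g.flatMap (fun s => bif s.2 then (U s.1).toWord else FreeGroup.invRev (U s.1).toWord)

theorem RCK_inv : Primrec (FreeGroup.invRev : List (Fin k × Bool) → List (Fin k × Bool)) := by
  have h : Primrec (fun L : List (Fin k × Bool) => (L.map (fun s => (s.1, !s.2))).reverse) := by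
    refine Primrec.list_reverse.comp (Primrec.list_map Primrec.id ?_)
    exact ((Primrec.dom_finite (fun s : Fin k × Bool => (s.1, !s.2))).comp Primrec.snd).to₂
  exact h

theorem RCK_ev_primrec (U : Fin r → FreeGroup (Fin k)) : Primrec (RCK_ev U) := by
  refine Primrec.list_flatMap Primrec.id ?_
  exact ((Primrec.dom_finite (fun s : Fin r × Bool =>
    (bif s.2 then (U s.1).toWord else FreeGroup.invRev (U s.1).toWord :
      List (Fin k × Bool)))).comp Primrec.snd).to₂

theorem RCK_mk_inv (L : List (Fin k × Bool)) :
    FreeGroup.mk (FreeGroup.invRev L) = (FreeGroup.mk L)⁻¹ := FreeGroup.inv_mk.symm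

theorem RCK_ev_mk (U : Fin r → FreeGroup (Fin k)) (g : List (Fin r × Bool)) :
    FreeGroup.mk (RCK_ev U g) = FreeGroup.lift U (FreeGroup.mk g) := by
  induction g with
  | nil => rw [← FreeGroup.one_eq_mk, map_one]; rfl
  | cons s g ih =>
    have h1 : FreeGroup.mk (s :: g) = FreeGroup.mk [s] * FreeGroup.mk g := by
      rw [FreeGroup.mul_mk]; rfl
    have h2 : RCK_ev U (s :: g) = (bif s.2 then (U s.1).toWord else
        FreeGroup.invRev (U s.1).toWord) ++ RCK_ev U g := by
      unfold RCK_ev
      rw [List.flatMap_cons]
    rw [h1, map_mul, h2, ← FreeGroup.mul_mk, ih]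
    congr 1
    obtain ⟨i, b⟩ := s
    cases b with
    | true => simp [FreeGroup.mk_toWord]
    | false => simp [RCK_mk_inv, FreeGroup.mk_toWord]

/-- certificates -/
abbrev RCKC (k r : ℕ) : Type := (List (Fin r × Bool) × List (Fin k × Bool)) × (Bool × ℕ)

/-- the generator of a certificate -/
def RCK_gen (U : Fin r → FreeGroup (Fin k)) (TL RL : List (List (Fin k × Bool)))
    (w : List (Fin k × Bool)) (c : RCKC k r) : List (Fin k × Bool) :=
  bif c.2.1 then
    (RCK_ev U c.1.1 ++ (w :: TL).getD c.2.2 []) ++ FreeGroup.invRev (RCK_ev U c.1.1)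
  else (c.1.2 ++ RL.getD c.2.2 []) ++ FreeGroup.invRev c.1.2

theorem RCK_gen_primrec (U : Fin r → FreeGroup (Fin k)) (TL RL : List (List (Fin k × Bool))) :
    Primrec (fun x : List (Fin k × Bool) × RCKC k r => RCK_gen U TL RL x.1 x.2) := by
  have hg : Primrec (fun x : List (Fin k × Bool) × RCKC k r => RCK_ev U x.2.1.1) :=
    (RCK_ev_primrec U).comp (Primrec.fst.comp (Primrec.fst.comp Primrec.snd))
  have hh : Primrec (fun x : List (Fin k × Bool) × RCKC k r => x.2.1.2) :=
    Primrec.snd.comp (Primrec.fst.comp Primrec.snd)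
  have hj : Primrec (fun x : List (Fin k × Bool) × RCKC k r => x.2.2.2) :=
    Primrec.snd.comp (Primrec.snd.comp Primrec.snd)
  have hb : Primrec (fun x : List (Fin k × Bool) × RCKC k r => x.2.2.1) :=
    Primrec.fst.comp (Primrec.snd.comp Primrec.snd)
  have h1 : Primrec (fun x : List (Fin k × Bool) × RCKC k r =>
      (x.1 :: TL).getD x.2.2.2 []) :=
    (Primrec.list_getD []).comp (Primrec.list_cons.comp Primrec.fst (Primrec.const TL)) hj
  have h2 : Primrec (fun x : List (Fin k × Bool) × RCKC k r => RL.getD x.2.2.2 []) :=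
    (Primrec.list_getD []).comp (Primrec.const RL) hj
  refine Primrec.cond hb ?_ ?_
  · exact Primrec.list_append.comp (Primrec.list_append.comp hg h1) (RCK_inv.comp hg)
  · exact Primrec.list_append.comp (Primrec.list_append.comp hh h2) (RCK_inv.comp hh)

/-- the enumeration of the generators -/
def RCK_Gen (U : Fin r → FreeGroup (Fin k)) (TL RL : List (List (Fin k × Bool)))
    (w : List (Fin k × Bool)) (n : ℕ) : List (Fin k × Bool) :=
  Option.casesOn (Encodable.decode (α := RCKC k r) n) [] (fun c => RCK_gen U TL RL w c)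

theorem RCK_Gen_primrec (U : Fin r → FreeGroup (Fin k)) (TL RL : List (List (Fin k × Bool))) :
    Primrec₂ (RCK_Gen U TL RL) := by
  have h1 : Primrec (fun x : List (Fin k × Bool) × ℕ =>
      (Option.casesOn (Encodable.decode (α := RCKC k r) x.2) []
        (fun c => RCK_gen U TL RL x.1 c) : List (Fin k × Bool))) := by
    refine Primrec.option_casesOn (Primrec.decode.comp Primrec.snd) (Primrec.const []) ?_
    exact ((RCK_gen_primrec U TL RL).comp ((Primrec.fst.comp Primrec.fst).pair Primrec.snd)).to₂
  exact h1

theorem RCK_getD {A : Type} (L : List A) (j : ℕ) (d : A) : L.getD j d ∈ L ∨ L.getD j d = d := by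
  by_cases h : j < L.length
  · left
    rw [List.getD_eq_getElem _ _ h]
    exact List.getElem_mem h
  · right
    exact List.getD_eq_default _ _ (not_lt.1 h)

theorem RCK_getD' {A : Type} (L : List A) (d a : A) (h : a ∈ L) : ∃ j, L.getD j d = a := by
  obtain ⟨j, hj, he⟩ := List.mem_iff_getElem.1 h
  exact ⟨j, by rw [List.getD_eq_getElem _ _ hj, he]⟩

end

theorem RCK {k : ℕ} (hCLC : CLCStmt k) : RCKStmt k := by
  intro r U rels T u
  obtain ⟨TL, hTL⟩ : ∃ TL : List (List (Fin k × Bool)), TL = T.toList.map FreeGroup.toWord :=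
    ⟨_, rfl⟩
  obtain ⟨RL, hRL⟩ : ∃ RL : List (List (Fin k × Bool)), RL = rels.toList.map FreeGroup.toWord :=
    ⟨_, rfl⟩
  refine (hCLC (RCK_Gen U TL RL) (RCK_Gen_primrec U TL RL) u).of_eq fun w => ?_
  have hTm : ∀ L ∈ TL, FreeGroup.mk L ∈ T := by
    intro L hL
    rw [hTL, List.mem_map] at hL
    obtain ⟨t, ht, rfl⟩ := hL
    rw [FreeGroup.mk_toWord]
    exact Finset.mem_toList.1 ht
  have hRm : ∀ L ∈ RL, FreeGroup.mk L ∈ rels := by
    intro L hL
    rw [hRL, List.mem_map] at hL
    obtain ⟨t, ht, rfl⟩ := hL
    rw [FreeGroup.mk_toWord]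
    exact Finset.mem_toList.1 ht
  have hgen : ∀ (n : ℕ) (c : RCKC k r), Encodable.decode (α := RCKC k r) n = some c →
      RCK_Gen U TL RL w n = RCK_gen U TL RL w c := by
    intro n c hc
    unfold RCK_Gen
    rw [hc]
  have hK : ∀ g : List (Fin r × Bool),
      FreeGroup.mk (RCK_ev U g) ∈ Subgroup.closure (Set.range U) := by
    intro g
    rw [RCK_ev_mk, ← FreeGroup.range_lift_eq_closure]
    exact ⟨_, rfl⟩
  have heq : Subgroup.closure (Set.range (fun n : ℕ => FreeGroup.mk (RCK_Gen U TL RL w n))) =
      cl (Subgroup.closure (Set.range U))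
        (Subgroup.normalClosure (rels : Set (FreeGroup (Fin k))))
        ((T : Set (FreeGroup (Fin k))) ∪ {FreeGroup.mk w}) := by
    apply le_antisymm
    · rw [Subgroup.closure_le]
      rintro _ ⟨n, rfl⟩
      simp only
      rw [SetLike.mem_coe]
      cases hdec : Encodable.decode (α := RCKC k r) n with
      | none =>
        have h1 : RCK_Gen U TL RL w n = [] := by
          unfold RCK_Gen
          rw [hdec]
        rw [h1, ← FreeGroup.one_eq_mk]
        exact Subgroup.one_mem _
      | some c =>
        rw [hgen n c hdec]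
        unfold RCK_gen
        cases hb : c.2.1 with
        | true =>
          rw [cond_true, ← FreeGroup.mul_mk, ← FreeGroup.mul_mk, RCK_mk_inv]
          rcases RCK_getD (w :: TL) c.2.2 [] with h | h
          · apply Subgroup.subset_closure
            left
            refine ⟨_, hK c.1.1, _, ?_, rfl⟩
            rcases List.mem_cons.1 h with h | h
            · right
              rw [h]
              rfl
            · left
              exact hTm _ h
          · rw [h, ← FreeGroup.one_eq_mk, mul_one, mul_inv_cancel]
            exact Subgroup.one_mem _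
        | false =>
          rw [cond_false, ← FreeGroup.mul_mk, ← FreeGroup.mul_mk, RCK_mk_inv]
          rcases RCK_getD RL c.2.2 [] with h | h
          · apply Subgroup.subset_closure
            right
            exact Subgroup.normalClosure_normal.conj_mem _
              (Subgroup.subset_normalClosure (hRm _ h)) _
          · rw [h, ← FreeGroup.one_eq_mk, mul_one, mul_inv_cancel]
            exact Subgroup.one_mem _
    · have hmem : ∀ c : RCKC k r, FreeGroup.mk (RCK_gen U TL RL w c) ∈
          Subgroup.closure (Set.range (fun n : ℕ => FreeGroup.mk (RCK_Gen U TL RL w n))) := by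
        intro c
        apply Subgroup.subset_closure
        exact ⟨Encodable.encode c, by
          simp only
          rw [hgen _ c (Encodable.encodek c)]⟩
      unfold cl
      rw [Subgroup.closure_le, Set.union_subset_iff]
      constructor
      · rintro _ ⟨g, hg, s, hs, rfl⟩
        rw [← FreeGroup.range_lift_eq_closure] at hg
        obtain ⟨z, rfl⟩ := hg
        have h1 : ∃ j, FreeGroup.mk ((w :: TL).getD j []) = s := by
          rcases hs with hs | hs
          · obtain ⟨j, hj⟩ := RCK_getD' (w :: TL) [] s.toWord (by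
              apply List.mem_cons_of_mem
              rw [hTL, List.mem_map]
              exact ⟨s, Finset.mem_toList.2 hs, rfl⟩)
            exact ⟨j, by rw [hj, FreeGroup.mk_toWord]⟩
          · refine ⟨0, ?_⟩
            have hs' : s = FreeGroup.mk w := hs
            rw [hs']
            rfl
        obtain ⟨j, hj⟩ := h1
        have h2 := hmem ((z.toWord, []), (true, j))
        unfold RCK_gen at h2
        simp only [cond_true] at h2
        rw [← FreeGroup.mul_mk, ← FreeGroup.mul_mk, RCK_mk_inv, hj, RCK_ev_mk,
          FreeGroup.mk_toWord] at h2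
        exact h2
      · have h3 : Subgroup.normalClosure (rels : Set (FreeGroup (Fin k))) ≤
            Subgroup.closure (Set.range (fun n : ℕ => FreeGroup.mk (RCK_Gen U TL RL w n))) := by
          unfold Subgroup.normalClosure
          rw [Subgroup.closure_le]
          intro x hx
          rw [Group.mem_conjugatesOfSet_iff] at hx
          obtain ⟨a, ha, hax⟩ := hx
          obtain ⟨h, rfl⟩ := isConj_iff.1 hax
          obtain ⟨j, hj⟩ := RCK_getD' RL [] a.toWord (by
            rw [hRL, List.mem_map]
            exact ⟨a, Finset.mem_toList.2 ha, rfl⟩)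
          have h2 := hmem (([], h.toWord), (false, j))
          unfold RCK_gen at h2
          simp only [cond_false] at h2
          rw [← FreeGroup.mul_mk, ← FreeGroup.mul_mk, RCK_mk_inv, hj, FreeGroup.mk_toWord,
            FreeGroup.mk_toWord] at h2
          exact h2
        exact h3
  rw [heq]

end GMS
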